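import Pool.Agent.Lib.helper10.Dig
import Pool.Agent.Lib.helper10.Sat3

namespace Pool.Agent.Results.MP_8b4e11_lc.NPComplete

open Pool.Agent.Cx Pool.Agent.Cx.Dg Polynomial

/-- `M` is a digraph with a comparability ordering -/
def Comp (M : List (List Bool)) : Prop :=
  IsDi M ∧ ∃ r : Fin M.length → Fin M.length → Prop, IsStrictTotalOrder _ r ∧
    ∀ x y z, r x y → r y z →
      (Entry M x y → Entry M y z → Entry M x z) ∧ (Entry M z y → Entry M y x → Entry M z x)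

def Rk {V : Type} (A : V → V → Prop) (ρ : V → ℕ) : Prop := ∀ x y z, A x y → A y z → ¬ A x z → x ≠ z →
  (ρ y < ρ x ∧ ρ y < ρ z) ∨ (ρ x < ρ y ∧ ρ z < ρ y)

lemma comp1 {M : List (List Bool)} (h : Comp M) :
    ∃ ρ : Fin M.length → ℕ, (∀ x, ρ x ≤ M.length) ∧ Rk (fun a b => Entry M a.1 b.1) ρ := by
  classical
  obtain ⟨h0, r, o, h⟩ := h
  have m : ∀ x y, r x y → (Finset.univ.filter (r · x)).card < (Finset.univ.filter (r · y)).card :=
    fun x y e => Finset.card_lt_card ⟨fun a q => by simpa using _root_.trans (by simpa using q) e,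
      fun q => irrefl_of r x (by simpa using q (show x ∈ _ by simpa))⟩
  refine ⟨fun x => (Finset.univ.filter (r · x)).card, fun x => by
    simpa using Finset.card_le_univ (Finset.univ.filter (r · x)), fun x y z a b c d => ?_⟩
  rcases trichotomous_of r x y with p | rfl | p
  · rcases trichotomous_of r y z with q | rfl | q
    · exact (c ((h _ _ _ p q).1 a b)).elim
    · exact (h0.2 _ b).elim
    · exact Or.inr ⟨m _ _ p, m _ _ q⟩
  · exact (h0.2 _ a).elim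
  · rcases trichotomous_of r y z with q | rfl | q
    · exact Or.inl ⟨m _ _ p, m _ _ q⟩
    · exact (h0.2 _ b).elim
    · exact (c ((h _ _ _ q p).2 a b)).elim

lemma comp2 {M : List (List Bool)} (h0 : IsDi M) {ρ : Fin M.length → ℕ}
    (h : Rk (fun a b => Entry M a.1 b.1) ρ) : Comp M := by
  refine ⟨h0, fun x y => ρ x < ρ y ∨ (ρ x = ρ y ∧ x.1 < y.1),
    { trichotomous := fun a b p q => Fin.ext (by omega), irrefl := fun a => by omega,
      trans := fun a b c p q => by omega }, fun x y z p q => ⟨fun a b => ?_, fun a b => ?_⟩⟩ <;>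
  by_contra c
  · have := h x y z a b c (by rintro rfl; omega); omega
  · have := h z y x a b c (by rintro rfl; omega); omega

abbrev F := List (Lit × Lit × Lit)
abbrev Vy := ℕ × ℕ × ℕ

def cl (φ : F) (c : ℕ) : Lit × Lit × Lit := φ.getD c ((0, false), (0, false), (0, false))
def pl (φ : F) (c i x s : ℕ) : Prop :=
  (i = 0 ∧ x = (cl φ c).1.1 + 1 ∧ (((cl φ c).1.2 = true ∧ s = 2) ∨ ((cl φ c).1.2 = false ∧ s = 1))) ∨
  (i = 1 ∧ x = (cl φ c).2.1.1 + 1 ∧ (((cl φ c).2.1.2 = true ∧ s = 2) ∨ ((cl φ c).2.1.2 = false ∧ s = 1))) ∨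
  (i = 2 ∧ x = (cl φ c).2.2.1 + 1 ∧ (((cl φ c).2.2.2 = true ∧ s = 1) ∨ ((cl φ c).2.2.2 = false ∧ s = 2))) ∨
  (i = 3 ∧ x = 0 ∧ s = 2)
def ar (φ : F) (x y : Vy) : Prop :=
  (x.1 = 0 ∧ y.1 = 0 ∧ x.2.1 = y.2.1 ∧ y.2.2 = x.2.2 + 1 ∧ y.2.2 ≤ 2) ∨
  (x.1 = 0 ∧ y.1 = 1 ∧ y.2.1 < φ.length ∧ pl φ y.2.1 y.2.2 x.2.1 x.2.2) ∨
  (x.1 = 1 ∧ y.1 = 2 ∧ x.2.1 = y.2.1 ∧ y.2.2 = x.2.2 % 2) ∨
  (x.1 < 3 ∧ y.1 = 3 ∧ ¬ (x.1 = 1 ∧ x.2.1 = y.2.1 ∧ y.2.2 = (x.2.2 + 1) / 2 % 2))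
instance (φ : F) : DecidableRel (ar φ) := fun _ _ => by unfold ar pl; infer_instance
def bd (φ : F) : ℕ := (φ.map fun c => c.1.1 + c.2.1.1 + c.2.2.1).sum + φ.length + 2
def verts (φ : F) : List Vy := List.range 4 ×ˢ List.range (bd φ) ×ˢ List.range 4
def red (φ : F) : List (List Bool) := mat (verts φ) fun p q => decide (ar φ p q)

lemma red_pt : PT red := by
  have b0 : PT bd := by unfold bd; fun_prop
  have b1 : PT verts := by unfold verts; fun_prop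
  refine PT.mat b1 (PP.decide ?_)
  unfold ar pl cl; fun_prop

variable {φ : F}

lemma mem_verts {p : Vy} : p ∈ verts φ ↔ p.1 < 4 ∧ p.2.1 < bd φ ∧ p.2.2 < 4 := by
  obtain ⟨a, b, c⟩ := p
  simp [verts]

lemma rks : ∀ y0 y1 y2 : Bool, (y0 = true ∨ y1 = true ∨ y2 = false) → ∃ a < 4, ∃ c < 4, ∃ b < 4, ∃ d < 4,
    (if y0 then a < b else b < a) ∧ (if y1 then c < d else d < c) ∧ (if y2 then a < d else d < a) ∧
      c < b := by decide

lemma fw (h : Sat3 φ) : ∃ ρ : Vy → ℕ, ∀ x y z : Vy, x.2.2 < 4 → ar φ x y → ar φ y z → ¬ ar φ x z →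
    (ρ y < ρ x ∧ ρ y < ρ z) ∨ (ρ x < ρ y ∧ ρ z < ρ y) := by
  obtain ⟨τ, h⟩ := h
  obtain ⟨Y, hY⟩ : ∃ Y : ℕ → ℕ → Bool, ∀ c i, Y c i = decide (φ.length ≤ c ∨ i = 3 ∨
    (i = 0 ∧ τ (cl φ c).1.1 = (cl φ c).1.2) ∨ (i = 1 ∧ τ (cl φ c).2.1.1 = (cl φ c).2.1.2) ∨
    (i = 2 ∧ ¬ τ (cl φ c).2.2.1 = (cl φ c).2.2.2)) := ⟨_, fun _ _ => rfl⟩
  have := fun c => rks (Y c 0) (Y c 1) (Y c 2) (by
    by_cases e : c < φ.length
    · have := h φ[c] (List.getElem_mem _)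
      simpa [hY, cl, e, Nat.not_le.2 e] using this
    · simp [hY, Nat.not_lt.1 e])
  choose a a4 c c4 b b4 d d4 e0 e1 e2 e3 using this
  obtain ⟨ρ, hρ⟩ : ∃ ρ : Vy → ℕ, ∀ p, ρ p =
    if p.1 = 0 then (if ((p.2.1 = 0 ∨ τ (p.2.1 - 1) = true) ↔ p.2.2 = 1) then 9 else 0)
    else if p.1 = 1 then (if Y p.2.1 p.2.2 then 9 else 0) else if p.1 = 2 then
      (if p.2.2 = 0 then a p.2.1 + 1 else c p.2.1 + 1) else (if p.2.2 = 0 then b p.2.1 + 1 else d p.2.1 + 1) :=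
    ⟨_, fun _ => rfl⟩
  have q1 : ∀ x s k i, k < φ.length → pl φ k i x s →
      (s = 1 ∨ s = 2) ∧ (ρ (0, x, s) = 0 ∧ ρ (1, k, i) = 9 ∨ ρ (0, x, s) = 9 ∧ ρ (1, k, i) = 0) := by
    intro x s k i l p
    have l := Nat.not_le.2 l
    rcases p with ⟨rfl, rfl, p⟩ | ⟨rfl, rfl, p⟩ | ⟨rfl, rfl, p⟩ | ⟨rfl, rfl, rfl⟩
    · rcases p with ⟨p, rfl⟩ | ⟨p, rfl⟩ <;> cases q : τ (cl φ k).1.1 <;> simp [*]
    · rcases p with ⟨p, rfl⟩ | ⟨p, rfl⟩ <;> cases q : τ (cl φ k).2.1.1 <;> simp [*]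
    · rcases p with ⟨p, rfl⟩ | ⟨p, rfl⟩ <;> cases q : τ (cl φ k).2.2.1 <;> simp [*]
    · simp [hρ, hY]
  have q2 : ∀ x, (ρ (0, x, 0) = 0 ∧ ρ (0, x, 1) = 9 ∧ ρ (0, x, 2) = 0) ∨
      (ρ (0, x, 0) = 9 ∧ ρ (0, x, 1) = 0 ∧ ρ (0, x, 2) = 9) := fun x => by
    by_cases e : x = 0 ∨ τ (x - 1) = true <;> simp [hρ, e]
  have q3 : ∀ k s, 0 < ρ (2, k, s) ∧ ρ (2, k, s) < 9 := fun k s => by
    have := a4 k; have := c4 k; by_cases e : s = 0 <;> simp [hρ, e] <;> omega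
  have q4 : ∀ k, ∀ i < 4, (ρ (1, k, i) = 9 ∧ ρ (2, k, i % 2) < ρ (3, k, (i + 1) / 2 % 2)) ∨
      (ρ (1, k, i) = 0 ∧ ρ (3, k, (i + 1) / 2 % 2) < ρ (2, k, i % 2)) := fun k i hi => by
    have := e0 k; have := e1 k; have := e2 k; have := e3 k
    have : Y k 3 = true := by simp [hY]
    clear hY
    interval_cases i <;> simp only [hρ] <;> grind
  clear hρ hY
  refine ⟨ρ, ?_⟩
  rintro ⟨x, x1, x2⟩ ⟨y, y1, y2⟩ ⟨z, z1, z2⟩ l p q r
  simp only [ar] at l p q r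
  rcases p with ⟨rfl, rfl, rfl, rfl, p⟩ | ⟨rfl, rfl, p, p'⟩ | ⟨rfl, rfl, rfl, rfl⟩ | ⟨-, rfl, -⟩
  · have := q2 x1
    rcases q with ⟨-, rfl, rfl, rfl, q⟩ | ⟨-, rfl, q, q'⟩ | q | q
    · obtain rfl : x2 = 0 := by omega
      simp only [zero_add, Nat.reduceAdd]; omega
    · obtain ⟨e | e, g⟩ := q1 _ _ _ _ q q' <;> obtain rfl : x2 = _ := Nat.succ_injective e <;>
      simp only [zero_add, Nat.reduceAdd] at * <;> omega
    · omega
    · omega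
  · have := q1 _ _ _ _ p p'
    rcases q with q | q | ⟨-, rfl, rfl, rfl⟩ | q
    · omega
    · omega
    · have := q3 y1 (y2 % 2); omega
    · omega
  · have := q4 x1 x2 l
    have := q3 x1 (x2 % 2)
    obtain ⟨rfl, rfl, rfl⟩ : z = 3 ∧ z1 = x1 ∧ z2 = (x2 + 1) / 2 % 2 := by omega
    omega
  · omega

lemma bw {ρ : Vy → ℕ} (h : ∀ x ∈ verts φ, ∀ y ∈ verts φ, ∀ z ∈ verts φ, ar φ x y → ar φ y z →
    ¬ ar φ x z → x ≠ z → (ρ y < ρ x ∧ ρ y < ρ z) ∨ (ρ x < ρ y ∧ ρ z < ρ y)) : Sat3 φ := by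
  simp only [mem_verts] at h
  have q : ∀ k < φ.length, ∀ i < 4, ∀ x < bd φ, ∀ s, pl φ k i x s →
      if (ρ (0, x, 2) < ρ (0, x, 1) ↔ s = 2) then ρ (2, k, i % 2) < ρ (3, k, (i + 1) / 2 % 2) else
        ρ (3, k, (i + 1) / 2 % 2) < ρ (2, k, i % 2) := fun k hk i hi x hx s p => by
    have k1 : k < bd φ := by unfold bd; omega
    have s1 : s = 1 ∨ s = 2 := by unfold pl at p; omega
    have n : ¬ pl φ k i x (s - 1) := by unfold pl at *; grind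
    have a := h (0, x, 0) (by simpa) (0, x, 1) (by simpa) (0, x, 2) (by simpa) (by simp [ar]) (by simp [ar])
      (by simp [ar]) (by simp)
    have b := h (0, x, s - 1) (by simp; omega) (0, x, s) (by simp; omega) (1, k, i) (by simp [*])
      (by simp [ar]; omega) (by simp [ar, *]) (by simp [ar, *]) (by simp)
    have c := h (0, x, s) (by simp; omega) (1, k, i) (by simp [*]) (2, k, i % 2) (by simp; omega)
      (by simp [ar, *]) (by simp [ar]) (by simp [ar]) (by simp)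
    have d := h (1, k, i) (by simp [*]) (2, k, i % 2) (by simp; omega) (3, k, (i + 1) / 2 % 2)
      (by simp; omega) (by simp [ar]) (by simp [ar]) (by simp [ar]) (by simp)
    rcases s1 with rfl | rfl <;> simp only [Nat.reduceSub] at b <;> split_ifs <;> omega
  refine ⟨fun v => decide (ρ (0, v + 1, 2) < ρ (0, v + 1, 1) ↔ ρ (0, 0, 2) < ρ (0, 0, 1)), fun c hc => ?_⟩
  have b := List.single_le_sum (l := φ.map fun c => c.1.1 + c.2.1.1 + c.2.2.1) (by simp) _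
    (List.mem_map_of_mem hc)
  obtain ⟨k, hk, rfl⟩ := List.getElem_of_mem hc
  have e : cl φ k = φ[k] := by simp [cl, hk]
  have q0 := q k hk 0 (by simp) (φ[k].1.1 + 1) (by unfold bd; omega) (if φ[k].1.2 then 2 else 1)
    (by simp [pl, e])
  have q1 := q k hk 1 (by simp) (φ[k].2.1.1 + 1) (by unfold bd; omega) (if φ[k].2.1.2 then 2 else 1)
    (by simp [pl, e])
  have q2 := q k hk 2 (by simp) (φ[k].2.2.1 + 1) (by unfold bd; omega) (if φ[k].2.2.2 then 1 else 2)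
    (by simp [pl, e])
  have q3 := q k hk 3 (by simp) 0 (by unfold bd; omega) 2 (by simp [pl])
  simp only [Nat.reduceAdd, Nat.reduceMod, Nat.reduceDiv] at q0 q1 q2 q3
  grind

def ver (z : List (List Bool) × List ℕ) : Prop := IsDi z.1 ∧ ¬ ∃ x < z.1.length, ∃ y < z.1.length,
  ∃ w < z.1.length, ent z.1 x y = true ∧ ent z.1 y w = true ∧ ¬ ent z.1 x w = true ∧ x ≠ w ∧
    ¬ ((z.2.getD y 0 < z.2.getD x 0 ∧ z.2.getD y 0 < z.2.getD w 0) ∨
      (z.2.getD x 0 < z.2.getD y 0 ∧ z.2.getD w 0 < z.2.getD y 0))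

theorem result : NPComplete (Lang Comp) := by
  classical
  refine ⟨inNP_Lang (V := fun z => decide (ver z)) (PP.decide ?_) (X * (2 * X + 2) + 1) (fun M hM => ?_)
    fun M z h => ?_, (hard_sat3.red red_pt fun φ => ?_).npHard⟩
  · have := pp_isDi
    unfold ver; fun_prop
  · obtain ⟨ρ, a, b⟩ := comp1 hM
    refine ⟨List.ofFn ρ, (size_list_le _ (2 * M.length + 1) fun v hv => ?_).trans ?_,
      decide_eq_true ⟨hM.1, ?_⟩⟩
    · obtain ⟨j, rfl⟩ := List.mem_ofFn.1 hv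
      have := a j
      rw [size_nat]; omega
    · have := (length_lt_size M).le
      simp only [List.length_ofFn, eval_add, eval_mul, eval_X, eval_ofNat, eval_one]
      exact Nat.succ_le_succ (Nat.mul_le_mul this (by omega))
    · rintro ⟨x, p, y, q, w, r, c, d, e, f, g⟩
      exact g (by simpa [p, q, r] using b ⟨x, p⟩ ⟨y, q⟩ ⟨w, r⟩ c d e (by simpa))
  · obtain ⟨a, b⟩ := of_decide_eq_true h
    exact comp2 a (ρ := fun i => z.getD i 0) fun x y w c d e f => by_contra fun g =>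
      b ⟨x, x.2, y, y.2, w, w.2, c, d, e, Fin.val_ne_of_ne f, g⟩
  obtain ⟨h0, f, h1, h2, h3⟩ := di_kit (verts φ) (ar φ) (fun p h => by unfold ar at h; omega)
    (List.nodup_range.product (List.nodup_range.product List.nodup_range)) (M := red φ) rfl
  constructor
  · intro h
    obtain ⟨ρ, h⟩ := fw h
    refine comp2 h0 (ρ := fun a => ρ (f a)) fun x y z a b c _ => ?_
    simp only [h1] at a b c
    exact h _ _ _ (mem_verts.1 ((h2 _).1 ⟨x, rfl⟩)).2.2 a b c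
  · intro h
    obtain ⟨ρ, -, h⟩ := comp1 h
    refine bw (ρ := fun p => if e : ∃ a, f a = p then ρ e.choose else 0) fun x a y b z c p q r s => ?_
    obtain ⟨x, rfl⟩ := (h2 x).2 a
    obtain ⟨y, rfl⟩ := (h2 y).2 b
    obtain ⟨z, rfl⟩ := (h2 z).2 c
    simpa [h3.eq_iff] using h x y z ((h1 _ _).2 p) ((h1 _ _).2 q) (mt (h1 _ _).1 r) fun e => s (e ▸ rfl)

end Pool.Agent.Results.MP_8b4e11_lc.NPComplete
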